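import Pool.Agent.H683.SC.PosStm

/-!
# Project SP (helper683), S_TAB: table evaluation in postfix order (helper80)
-/

set_option autoImplicit false

namespace Pool.Agent.H80.SPTAB

open Pool.Agent.H683.SC

theorem mem_sts (kk : ℕ) : ∀ (j : ℕ) (σ : List ℕ), σ ∈ sts kk j ↔
    σ.length = j ∧ ∀ s ∈ σ, s < kk + 2 := by
  intro j
  induction j with
  | zero =>
    intro σ
    simp only [sts, List.mem_singleton, List.length_eq_zero_iff]
    constructor
    · rintro rfl
      exact ⟨rfl, fun s hs => by simp at hs⟩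
    · exact fun h => h.1
  | succ j ih =>
    intro σ
    simp only [sts, List.mem_flatMap, List.mem_map, List.mem_range]
    constructor
    · rintro ⟨τ, hτ, c, hc, rfl⟩
      obtain ⟨h1, h2⟩ := (ih τ).1 hτ
      refine ⟨by rw [List.length_cons, h1], fun s hs => ?_⟩
      rcases List.mem_cons.1 hs with rfl | h3
      · exact hc
      · exact h2 s h3
    · rintro ⟨h1, h2⟩
      cases σ with
      | nil => simp at h1
      | cons c τ =>
        refine ⟨τ, (ih τ).2 ⟨by simpa using h1, fun s hs => h2 s (List.mem_cons_of_mem _ hs)⟩, c,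
          h2 c List.mem_cons_self, rfl⟩

theorem lk_map (st : List (List ℕ)) (f : List ℕ → ℕ) (σ : List ℕ) (h : σ ∈ st) :
    lk st (st.map f) σ = f σ := by
  unfold lk
  have h1 : (st.zip (st.map f)).find? (fun p => decide (p.1 = σ)) = some (σ, f σ) := by
    induction st with
    | nil => simp at h
    | cons x st ih =>
      rw [List.map_cons, List.zip_cons_cons, List.find?_cons]
      by_cases hx : x = σ
      · subst hx
        simp
      · have h2 : decide (x = σ) = false := by simp [hx]
        simp only [h2]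
        refine ih ?_
        rcases List.mem_cons.1 h with h3 | h3
        · exact (hx h3.symm).elim
        · exact h3
  rw [h1]

theorem getD_lt {kk : ℕ} {σ : List ℕ} (h : ∀ s ∈ σ, s < kk + 2) (i : ℕ) :
    σ.getD i 0 < kk + 2 := by
  rw [List.getD_eq_getElem?_getD]
  cases hi : σ[i]? with
  | none => simp
  | some x =>
    simp only [Option.getD_some]
    exact h x (List.mem_of_getElem? hi)

theorem set_mem {kk : ℕ} {σ : List ℕ} (h : σ ∈ sts kk kk) (i : ℕ) {x : ℕ} (hx : x < kk + 2) :
    σ.set i x ∈ sts kk kk := by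
  rw [mem_sts] at h ⊢
  refine ⟨by rw [List.length_set, h.1], fun s hs => ?_⟩
  rcases List.mem_or_eq_of_mem_set hs with h1 | h1
  · exact h.2 s h1
  · rw [h1]
    exact hx

theorem cols_lt {kk q x y fr : ℕ} (hx : x < kk + 2) (hy : y < kk + 2) :
    ∀ c ∈ cols kk q x y fr, c.1 < kk := by
  intro c hc
  unfold cols at hc
  split_ifs at hc with h1 h2 h3 h4
  · simp at hc
  · rw [List.mem_map] at hc
    obtain ⟨d, hd, rfl⟩ := hc
    exact List.mem_range.1 hd
  · rw [List.mem_singleton] at hc
    subst hc
    show y - 2 < kk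
    omega
  · rw [List.mem_singleton] at hc
    subst hc
    show x - 2 < kk
    omega
  · simp at hc

theorem jn_congr {kk : ℕ} {N N' : ℕ → ℕ → ℕ} (h : ∀ x < kk + 2, ∀ y < kk + 2, N x y = N' x y)
    {x y : ℕ} (hx : x < kk + 2) (hy : y < kk + 2) {cs : List (ℕ × ℕ)}
    (hcs : ∀ c ∈ cs, c.1 < kk) : jn N x y cs = jn N' x y cs := by
  unfold jn
  rw [h 0 (by omega) y hy, h x hx 0 (by omega), h 0 (by omega) 0 (by omega)]
  have e1 : (cs.map fun c => c.2 * (N (c.1 + 2) (c.1 + 2) + N' 0 0)) =
      cs.map fun c => c.2 * (N' (c.1 + 2) (c.1 + 2) + N' 0 0) := by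
    refine List.map_congr_left fun c hc => ?_
    have := hcs c hc
    rw [h _ (by omega) _ (by omega)]
  have e2 : (cs.map fun c => c.2 * (N (c.1 + 2) 0 + N 0 (c.1 + 2))) =
      cs.map fun c => c.2 * (N' (c.1 + 2) 0 + N' 0 (c.1 + 2)) := by
    refine List.map_congr_left fun c hc => ?_
    have := hcs c hc
    rw [h _ (by omega) _ (by omega), h _ (by omega) _ (by omega)]
  rw [e1, e2]

theorem jv_congr {D : List ℕ} {q : ℕ} {N N' : List ℕ → ℕ} {a b : ℕ} {σ : List ℕ}
    (hσ : σ ∈ sts D.length D.length) (h : ∀ τ ∈ sts D.length D.length, N τ = N' τ) :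
    jv D q N a b σ = jv D q N' a b σ := by
  unfold jv
  have h0 := (mem_sts _ _ _).1 hσ
  refine jn_congr (kk := D.length) (fun x hx y hy => h _ (set_mem (set_mem hσ _ hx) _ hy))
    (getD_lt h0.2 _) (getD_lt h0.2 _) (cols_lt (getD_lt h0.2 _) (getD_lt h0.2 _))

theorem main (D : List ℕ) (X q : ℕ) (t : KExp) : ∀ s : List (List ℕ),
    t.toks.foldl (tst D X q (sts D.length D.length)) s =
      ((sts D.length D.length).map (W D X q t)) :: s := by
  induction t with
  | vtx a =>
    intro s
    simp only [KExp.toks, List.foldl_cons, List.foldl_nil, tst, if_true]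
    rfl
  | union t1 t2 ih1 ih2 =>
    intro s
    rw [KExp.toks, List.foldl_append, ih1, List.foldl_append, ih2]
    simp only [List.foldl_cons, List.foldl_nil]
    unfold tst
    rw [if_neg (by norm_num), if_pos rfl]
    simp only [List.drop_succ_cons, List.drop_zero, List.getD_cons_succ, List.getD_cons_zero]
    congr 1
    refine List.map_congr_left fun σ hσ => ?_
    rw [lk_map _ _ _ hσ, lk_map _ _ _ hσ]
    rfl
  | join a b t ih =>
    intro s
    rw [KExp.toks, List.foldl_append, ih]
    simp only [List.foldl_cons, List.foldl_nil]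
    unfold tst
    rw [if_neg (by norm_num), if_neg (by norm_num), if_pos rfl]
    simp only [List.drop_succ_cons, List.drop_zero, List.getD_cons_zero]
    congr 1
    refine List.map_congr_left fun σ hσ => ?_
    exact jv_congr hσ fun τ hτ => lk_map _ _ _ hτ
  | relab a b t ih =>
    intro s
    rw [KExp.toks, List.foldl_append, ih]
    simp only [List.foldl_cons, List.foldl_nil]
    unfold tst
    rw [if_neg (by norm_num), if_neg (by norm_num), if_neg (by norm_num)]
    simp only [List.drop_succ_cons, List.drop_zero, List.getD_cons_zero]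
    congr 1
    refine List.map_congr_left fun σ hσ => ?_
    rw [lk_map _ _ _ (set_mem hσ _ (getD_lt ((mem_sts _ _ _).1 hσ).2 _))]
    rfl

theorem TAB : S_TAB := fun D X q t s _ _ _ => main D X q t s

end Pool.Agent.H80.SPTAB
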